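import Pool.Agent.H88.MSeq4

set_option autoImplicit false

namespace Pool.Agent.Results.MP_38d282_an.Mult

open Pool.Agent.H88.MSeq

theorem result :
    IsMultSeq (fun k : ℕ => 1 / (((k : ℝ) + 1) ^ (k + 1) * (k.factorial : ℝ))) :=
  ms_38

end Pool.Agent.Results.MP_38d282_an.Mult
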